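import Pool.Agent.Y924.UF.Stm

/-! The codes of the sentences are computable (job UF-CMP). -/

set_option autoImplicit false

namespace Pool.Agent.Y304.UF

open Pool.Agent.Y924.EL Pool.Agent.Y924.UF

theorem prim_left {f : ℕ → ℕ} (hf : Primrec f) : Primrec fun s => (f s).unpair.1 :=
  Primrec.fst.comp (Primrec.unpair.comp hf)

theorem prim_right {f : ℕ → ℕ} (hf : Primrec f) : Primrec fun s => (f s).unpair.2 :=
  Primrec.snd.comp (Primrec.unpair.comp hf)

theorem prim_pair {f g : ℕ → ℕ} (hf : Primrec f) (hg : Primrec g) :
    Primrec fun s => Nat.pair (f s) (g s) :=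
  Primrec₂.natPair.comp hf hg

theorem prim_comp5 (i : Fin 5) : Primrec (comp5 i) := by
  have h0 : Primrec fun s : ℕ => s := Primrec.id
  fin_cases i
  · exact prim_left h0
  · exact prim_left (prim_right h0)
  · exact prim_left (prim_right (prim_right h0))
  · exact prim_left (prim_right (prim_right (prim_right h0)))
  · exact prim_right (prim_right (prim_right (prim_right h0)))

theorem prim_cd (τ : Tp) : Primrec τ.cd := by
  induction τ with
  | hole i => exact prim_comp5 i
  | atom φ => exact Primrec.const φ.code
  | neg τ ih => exact prim_pair (Primrec.const 5) ih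
  | and τ υ ih1 ih2 => exact prim_pair (Primrec.const 6) (prim_pair ih1 ih2)
  | ex i τ ih => exact prim_pair (Primrec.const 7) (prim_pair (Primrec.const i) ih)

theorem prim_cdT (T : Fin 5 → Tp) : Primrec (cdT T) :=
  prim_pair (prim_cd _) (prim_pair (prim_cd _) (prim_pair (prim_cd _)
    (prim_pair (prim_cd _) (prim_cd _))))

theorem t_CMP : S_CMP := by
  intro τ T s0
  have h : Primrec fun n : ℕ => (cdT T)^[n] s0 :=
    Primrec.nat_iterate Primrec.id (Primrec.const s0) ((prim_cdT T).comp Primrec.snd).to₂
  exact ((prim_cd τ).comp h).to_comp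

end Pool.Agent.Y304.UF
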